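import Mathlib

namespace Pool.Agent.Results.MP_f38b71_nt.Counter

open PowerSeries

/-- The `q`-expansion of the Eisenstein series `E_k`. -/
noncomputable def Eis (k : ℕ) : PowerSeries ℚ :=
  PowerSeries.mk fun n =>
    if n = 0 then 1 else -(2 * k / bernoulli k) * (ArithmeticFunction.sigma (k - 1) n : ℚ)

/-- The `q`-expansion of the discriminant `Δ = (E_4^3 - E_6^2) / 1728`. -/
noncomputable def Disc : PowerSeries ℚ := C (1 / 1728) * (Eis 4 ^ 3 - Eis 6 ^ 2)

/-- The `q`-expansion of `E_k / (j - j₀)`, using `1 / (j - j₀) = Δ / (E_4^3 - j₀ Δ)`. -/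
noncomputable def Form (k : ℕ) (j₀ : ℚ) : PowerSeries ℚ :=
  Eis k * (Disc * (Eis 4 ^ 3 - C j₀ * Disc)⁻¹)

/-- The `j`-invariant of an integral Weierstrass model. -/
def jInv (W : WeierstrassCurve ℤ) : ℚ := (W.c₄ : ℚ) ^ 3 / W.Δ

/-- The trace of Frobenius `a_p = p + 1 - #C(F_p)`. -/
noncomputable def ap (W : WeierstrassCurve ℤ) (p : ℕ) : ℤ :=
  p + 1 - Nat.card (W.map (Int.castRingHom (ZMod p))).toAffine.Point

/-- The thirteen `j`-invariants of the elliptic curves over `ℚ` with complex multiplication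
(discriminants `-3, -4, -7, -8, -11, -12, -16, -19, -27, -28, -43, -67, -163`). -/
def cmJ : Set ℚ :=
  {0, 1728, -3375, 8000, -32768, 54000, 287496, -884736, -12288000, 16581375, -884736000,
    -147197952000, -262537412640768000}

lemma b4 : bernoulli 4 = -1 / 30 := by
  rw [bernoulli_eq_bernoulli'_of_ne_one (by norm_num), bernoulli'_four]

lemma b6 : bernoulli 6 = 1 / 42 := by
  have h5 : bernoulli' 5 = 0 := bernoulli'_eq_zero_of_odd (by decide) (by norm_num)
  rw [bernoulli_eq_bernoulli'_of_ne_one (by norm_num), bernoulli'_def]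
  norm_num [Finset.sum_range_succ, h5, Nat.choose]

lemma m0 (f g : PowerSeries ℚ) : coeff 0 (f * g) = coeff 0 f * coeff 0 g := by simp

lemma m1 (f g : PowerSeries ℚ) : coeff 1 (f * g) = coeff 0 f * coeff 1 g + coeff 1 f * coeff 0 g := by
  simp [coeff_mul, Finset.Nat.antidiagonal_succ]

lemma m2 (f g : PowerSeries ℚ) : coeff 2 (f * g) =
    coeff 0 f * coeff 2 g + coeff 1 f * coeff 1 g + coeff 2 f * coeff 0 g := by
  simp [coeff_mul, Finset.Nat.antidiagonal_succ, add_assoc]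

lemma coeffs (c : ℚ) : coeff 1 (Form 4 c) = 1 ∧ coeff 2 (Form 4 c) = c - 504 := by
  have s : ∀ k, ArithmeticFunction.sigma k 2 = 1 + 2 ^ k := fun k => by
    rw [ArithmeticFunction.sigma_apply, Nat.Prime.divisors Nat.prime_two]; simp
  have a0 : ∀ k, coeff 0 (Eis k) = 1 := fun k => by simp only [Eis, coeff_mk, if_true]
  have a1 : coeff 1 (Eis 4) = 240 := by simp only [Eis, coeff_mk, b4]; norm_num
  have a2 : coeff 2 (Eis 4) = 2160 := by simp only [Eis, coeff_mk, b4, s]; norm_num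
  have c1 : coeff 1 (Eis 6) = -504 := by simp only [Eis, coeff_mk, b6]; norm_num
  have c2 : coeff 2 (Eis 6) = -16632 := by simp only [Eis, coeff_mk, b6, s]; norm_num
  have d0 : coeff 0 Disc = 0 := by
    simp only [Disc, coeff_C_mul, map_sub, pow_succ, pow_zero, one_mul, m0, a0]; norm_num
  have d1 : coeff 1 Disc = 1 := by
    simp only [Disc, coeff_C_mul, map_sub, pow_succ, pow_zero, one_mul, m0, m1, a0, a1, c1]
    norm_num
  have d2 : coeff 2 Disc = -24 := by
    simp only [Disc, coeff_C_mul, map_sub, pow_succ, pow_zero, one_mul, m0, m1, m2, a0, a1, c1, a2,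
      c2]
    norm_num
  have e0 : coeff 0 (Eis 4 ^ 3 - C c * Disc) = 1 := by
    simp only [coeff_C_mul, map_sub, pow_succ, pow_zero, one_mul, m0, a0, d0]; norm_num
  have e1 : coeff 1 (Eis 4 ^ 3 - C c * Disc) = 720 - c := by
    simp only [coeff_C_mul, map_sub, pow_succ, pow_zero, one_mul, m0, m1, a0, a1, d1]; norm_num
  have h := PowerSeries.inv_mul_cancel (Eis 4 ^ 3 - C c * Disc) (by
    rw [← coeff_zero_eq_constantCoeff_apply, e0]; norm_num)
  rw [Form]
  generalize Eis 4 ^ 3 - C c * Disc = A at *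
  have h0 := congrArg (coeff 0) h
  have h1 := congrArg (coeff 1) h
  rw [m0, e0, coeff_one] at h0
  rw [m1, e0, e1, coeff_one] at h1
  simp only [m0, m1, m2, a0, a1, a2, d0, d1, d2]
  generalize coeff 0 A⁻¹ = x at *
  norm_num at h0 h1 ⊢
  subst h0
  constructor <;> linarith

theorem result : ¬ ∀ k ∈ ({4, 6, 8, 10, 14} : Set ℕ),
    ∀ (W : WeierstrassCurve ℤ) (p : ℕ) [Fact p.Prime], ¬ (p : ℤ) ∣ W.Δ → jInv W ≠ 0 →
      jInv W ≠ 1728 → jInv W ∈ cmJ → ¬ (p : ℤ) ∣ ap W p →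
      padicValRat p (jInv W) = 0 → padicValRat p (jInv W - 1728) = 0 →
      ∀ u : ℚ_[p], ‖u‖ = 1 → u ^ 2 - ap W p * u + p = 0 → ∀ n l : ℕ, 1 ≤ n → 1 ≤ l →
        ‖((coeff (n * p ^ l) (Form k (jInv W)) : ℚ) : ℚ_[p]) -
            u ^ (k - 2) * (coeff (n * p ^ (l - 1)) (Form k (jInv W)) : ℚ)‖ ≤
          (p : ℝ) ^ (-(((k - 1) * l : ℕ) : ℤ)) := by
  intro h
  have d : (⟨1, -1, 0, -37, -78⟩ : WeierstrassCurve ℤ).Δ = 343 := by decide
  have j : jInv ⟨1, -1, 0, -37, -78⟩ = 16581375 := by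
    have : (⟨1, -1, 0, -37, -78⟩ : WeierstrassCurve ℤ).c₄ = 1785 := by decide
    rw [jInv, d, this]; norm_num
  have a : ap ⟨1, -1, 0, -37, -78⟩ 2 = 1 := by
    rw [ap, Nat.card_congr (WeierstrassCurve.Affine.nonsingularPointEquiv _)]
    simp only [WeierstrassCurve.Affine.nonsingular_iff, WeierstrassCurve.Affine.equation_iff,
      WithZero, Nat.card_eq_fintype_card]
    decide +kernel
  have v : ∀ a : ℕ, ¬ 2 ∣ a → padicValRat 2 (a : ℚ) = 0 := fun a x => by
    simp [padicValNat.eq_zero_of_not_dvd x]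
  have n2 : ‖(2 : ℤ_[2])‖ = 1 / 2 := by simpa using PadicInt.norm_p (p := 2)
  obtain ⟨z, z1, z2, -⟩ := hensels_lemma (p := 2) (R := ℤ) (a := 1)
    (F := Polynomial.X ^ 2 - Polynomial.X + Polynomial.C 2) (by
      simp [map_ofNat, n2]; norm_num)
  have z3 : (z : ℚ_[2]) ^ 2 - z + 2 = 0 := by
    have := congrArg ((↑) : ℤ_[2] → ℚ_[2]) z1
    simp [map_ofNat] at this
    exact this
  have z4 : ‖(z : ℚ_[2]) - 1‖ < 1 := by
    norm_num [map_ofNat] at z2
    exact z2
  have z5 : ‖(z : ℚ_[2])‖ = 1 := by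
    rw [← sub_add_cancel (z : ℚ_[2]) 1, Padic.add_eq_max_of_ne (by simpa using z4.ne), norm_one,
      max_eq_right z4.le]
  have := h 4 (by simp) ⟨1, -1, 0, -37, -78⟩ 2 (by rw [d]; decide) (by rw [j]; norm_num)
    (by rw [j]; norm_num) (by rw [j]; simp [cmJ]) (by rw [a]; decide)
    (by rw [j]; exact_mod_cast v 16581375 (by norm_num))
    (by
      rw [j, show (16581375 - 1728 : ℚ) = (16579647 : ℕ) by norm_num]
      exact v _ (by norm_num)) z z5 (by rw [a]; simpa using z3) 1 1 le_rfl le_rfl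
  rw [j] at this
  norm_num [(coeffs _).1, (coeffs _).2] at this
  have n3 : ‖(2 : ℚ_[2])‖ = 1 / 2 := by simpa using Padic.norm_p (p := 2)
  have n4 : ‖(16580872 : ℚ_[2])‖ ≤ 1 / 8 := by
    rw [show (16580872 : ℚ_[2]) = 2 ^ 3 * (2072609 : ℤ) by norm_num, norm_mul, norm_pow, n3]
    have := Padic.norm_int_le_one (p := 2) 2072609
    norm_num at this ⊢
    exact this
  have n5 := Padic.nonarchimedean (16580872 : ℚ_[2]) (-(16580871 - z ^ 2))
  have n6 : (2 : ℚ_[2]) = -z * (16580872 + -(16580871 - z ^ 2)) := by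
    linear_combination (1 + (z : ℚ_[2])) * z3
  rw [n6, norm_mul, norm_neg, z5] at n3
  rw [norm_neg] at n5
  linarith [max_le n4 this]

end Pool.Agent.Results.MP_f38b71_nt.Counter
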